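import Pool.Agent.H14.Rho2.Reduce

/-!
For every real `B` there is `K` such that for all large `y` every set `S ⊆ {1, ..., y}` which misses
a residue class modulo every prime `p ≤ K y (log log y) / (log y)^2` contains an admissible set `A`
with `|A| ≥ |S| - y / (log y)^B`.
-/

set_option autoImplicit false

open Finset Real

namespace Pool.Agent.Results.MP_5046ca_nt.SmallPrimesDecide

theorem result :
    ∀ B : ℝ, ∃ K : ℝ, ∃ Y : ℕ, ∀ y : ℕ, Y ≤ y → ∀ S : Finset ℕ, S ⊆ Finset.Icc 1 y →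
      (∀ p : ℕ, p.Prime → (p : ℝ) ≤ K * y * Real.log (Real.log y) / (Real.log y) ^ 2 →
        ∃ r : ℕ, ∀ a ∈ S, ¬ a ≡ r [MOD p]) →
      ∃ A : Finset ℕ, A ⊆ S ∧
        (∀ p : ℕ, p.Prime → ∃ r : ℕ, ∀ a ∈ A, ¬ a ≡ r [MOD p]) ∧
        (S.card : ℝ) - y / (Real.log y) ^ B ≤ A.card := by
  intro B
  obtain ⟨K, Y, h⟩ := Rho2.reduce B
  refine ⟨K, Y, fun y hy S hS hm => ?_⟩
  obtain ⟨A, h1, h2, h3⟩ := h y hy S hS hm
  exact ⟨A, h1, h2, h3⟩

end Pool.Agent.Results.MP_5046ca_nt.SmallPrimesDecide
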