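import Pool.Agent.H7.RhoV.TuplesV

/-!
Let `0 ≤ c₁` and `c₀ + c₁ < 2`.  If `ρ(y) ≤ π(y) + c₀ (log log log y) y / (log y)^2` for
infinitely many `y` (in particular if Q1 holds), then there are arbitrarily large admissible
sets `A` such that every sufficiently late translate `x + A` contains fewer than
`k - c₁ k (log log log k) / log k` primes, `k = |A|`.
-/

set_option autoImplicit false

open Finset Real

namespace Pool.Agent.Results.MP_5046ca_nt.TuplesFailSharp

theorem result :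
    ∀ c₀ c₁ : ℝ, 0 ≤ c₁ → c₀ + c₁ < 2 →
      (∀ Y : ℕ, ∃ y : ℕ, Y ≤ y ∧ ∃ X : ℕ, ∀ x : ℕ, X ≤ x →
        (Nat.primeCounting (x + y) : ℝ) - Nat.primeCounting x ≤
          Nat.primeCounting y + c₀ * Real.log (Real.log (Real.log y)) * y / (Real.log y) ^ 2) →
      ∀ K : ℕ, ∃ A : Finset ℕ, K ≤ A.card ∧
        (∀ p : ℕ, p.Prime → ∃ r : ℕ, ∀ a ∈ A, ¬ a ≡ r [MOD p]) ∧
        ∃ X : ℕ, ∀ x : ℕ, X ≤ x →
          ((A.filter (fun a => (x + a).Prime)).card : ℝ) <
            A.card - c₁ * Real.log (Real.log (Real.log A.card)) * A.card /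
              Real.log A.card := by
  intro c₀ c₁ hc1 hc h K
  obtain ⟨A, h1, h2, h3⟩ := RhoV.tuples_growthV (κ := 2) (fun c hc => RhoV.dense_lt hc) hc1 hc h K
  exact ⟨A, h1, h2, h3⟩

end Pool.Agent.Results.MP_5046ca_nt.TuplesFailSharp
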